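import Pool.Agent.Helper17.QD.Glue

/-!
# Project QD, glue, module FPC: new Fuchsian groups from old ones
-/

set_option autoImplicit false

open Filter Topology Matrix Set Metric MeasureTheory
open scoped ComplexConjugate ComplexOrder ENNReal

namespace Pool.Agent.Helper14.QL

open Pool.Agent.Helper17.QD Pool.Agent.Helper35.PM
open Pool.Agent.Helper68.QC (nq Bel InvB Intw)
open Pool.Agent.Helper20.QD (Fuch cj IsSU D DD SS dz dzb mob den)

private theorem cs2 (a b c d : ℂ) :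
    ‖a * b + c * d‖ ^ 2 ≤ (‖a‖ ^ 2 + ‖c‖ ^ 2) * (‖b‖ ^ 2 + ‖d‖ ^ 2) := by
  have h1 : ‖a * b + c * d‖ ≤ ‖a‖ * ‖b‖ + ‖c‖ * ‖d‖ := by
    refine (norm_add_le _ _).trans ?_
    rw [norm_mul, norm_mul]
  have h2 : ‖a * b + c * d‖ ^ 2 ≤ (‖a‖ * ‖b‖ + ‖c‖ * ‖d‖) ^ 2 :=
    pow_le_pow_left₀ (norm_nonneg _) h1 2
  nlinarith [sq_nonneg (‖a‖ * ‖d‖ - ‖c‖ * ‖b‖)]

private theorem hs_exp (A : Mat) : hs A = ‖A 0 0‖ ^ 2 + ‖A 0 1‖ ^ 2 + (‖A 1 0‖ ^ 2 + ‖A 1 1‖ ^ 2) := by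
  unfold hs
  simp only [Fin.sum_univ_two]

private theorem hs_mul_le (A B : Mat) : hs (A * B) ≤ hs A * hs B := by
  rw [hs_exp, hs_exp A, hs_exp B]
  simp only [Matrix.mul_apply, Fin.sum_univ_two]
  have h00 := cs2 (A 0 0) (B 0 0) (A 0 1) (B 1 0)
  have h01 := cs2 (A 0 0) (B 0 1) (A 0 1) (B 1 1)
  have h10 := cs2 (A 1 0) (B 0 0) (A 1 1) (B 1 0)
  have h11 := cs2 (A 1 0) (B 0 1) (A 1 1) (B 1 1)
  nlinarith [h00, h01, h10, h11]

private theorem hs_nn (A : Mat) : 0 ≤ hs A := by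
  rw [hs_exp]
  positivity

private theorem cc_apply {Γ : Type} [Group Γ] (ρ : Γ →* SL) (γ : Γ) (i j : Fin 2) :
    ((cc ρ γ : SL) : Mat) i j = conj (((ρ γ : SL) : Mat) i j) := rfl

private theorem mob_cc {Γ : Type} [Group Γ] (ρ : Γ →* SL) (γ : Γ) (z : ℂ) :
    mob (cc ρ γ) z = conj (mob (ρ γ) (conj z)) := by
  unfold mob
  simp only [cc_apply, map_div₀, map_add, map_mul, Complex.conj_conj]

private theorem cj_eq {Γ : Type} [Group Γ] (N : SL) (σ : Γ →* SL) (γ : Γ) :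
    cj N σ γ = N * σ γ * N⁻¹ := rfl

theorem hFPC (hSUB : Pool.Agent.Helper20.QD.StSUB) : Pool.Agent.Helper17.QD.StFPC := by
  intro Γ _ σ hσ
  obtain ⟨s1, s2, -, s4, s5, -⟩ := hSUB
  refine ⟨⟨?_, ?_, ?_⟩, ?_, ?_⟩
  · intro γ
    have h := hσ.su γ
    refine ⟨?_, ?_⟩
    · rw [cc_apply, cc_apply, h.1]
    · rw [cc_apply, cc_apply, h.2]
  · intro X
    have h := hσ.discrete X
    refine h.subset ?_
    intro γ hγ
    have he : hs ((cc σ γ : SL) : Mat) = hs ((σ γ : SL) : Mat) := by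
      rw [hs_exp, hs_exp]
      simp only [cc_apply, RCLike.norm_conj]
    simp only [Set.mem_ofPred_eq] at hγ ⊢
    rw [← he]
    exact hγ
  · obtain ⟨r, hr, hc⟩ := hσ.cocompact
    refine ⟨r, hr, fun z hz => ?_⟩
    have hz' : conj z ∈ D := by
      rw [mem_ball_zero_iff] at hz ⊢
      rwa [RCLike.norm_conj]
    obtain ⟨γ, hγ⟩ := hc _ hz'
    refine ⟨γ, ?_⟩
    rw [mob_cc, RCLike.norm_conj]
    exact hγ
  · intro φ
    refine ⟨fun γ => hσ.su (φ γ), ?_, ?_⟩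
    · intro X
      exact (hσ.discrete X).preimage φ.injective.injOn
    · obtain ⟨r, hr, hc⟩ := hσ.cocompact
      refine ⟨r, hr, fun z hz => ?_⟩
      obtain ⟨γ, hγ⟩ := hc z hz
      refine ⟨φ.symm γ, ?_⟩
      have he : pre φ σ (φ.symm γ) = σ γ := by
        show σ (φ (φ.symm γ)) = σ γ
        rw [φ.apply_symm_apply]
      rw [he]
      exact hγ
  · intro N hN
    refine ⟨?_, ?_, ?_⟩
    · intro γ
      rw [cj_eq]
      exact s2 _ _ (s2 _ _ hN (hσ.su γ)) (s1 N hN).1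
    · intro X
      refine (hσ.discrete (hs ((N⁻¹ : SL) : Mat) * X * hs (N : Mat))).subset ?_
      intro γ hγ
      simp only [Set.mem_ofPred_eq] at hγ ⊢
      have h1 : σ γ = N⁻¹ * (cj N σ γ) * N := by
        rw [cj_eq]
        group
      have h2 : hs ((σ γ : SL) : Mat) ≤
          hs ((N⁻¹ : SL) : Mat) * hs ((cj N σ γ : SL) : Mat) * hs (N : Mat) := by
        conv_lhs => rw [h1]
        rw [Matrix.SpecialLinearGroup.coe_mul, Matrix.SpecialLinearGroup.coe_mul]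
        exact (hs_mul_le _ _).trans (mul_le_mul_of_nonneg_right (hs_mul_le _ _) (hs_nn _))
      refine h2.trans ?_
      exact mul_le_mul_of_nonneg_right (mul_le_mul_of_nonneg_left hγ (hs_nn _)) (hs_nn _)
    · obtain ⟨r, hr, hc⟩ := hσ.cocompact
      have hr0 : 0 ≤ r := by
        obtain ⟨γ, hγ⟩ := hc 0 (by rw [mem_ball_zero_iff]; simp)
        exact (norm_nonneg _).trans hγ
      have hKD : closedBall (0 : ℂ) r ⊆ D := closedBall_subset_ball hr
      have hKDD : closedBall (0 : ℂ) r ⊆ DD := hKD.trans ball_subset_closedBall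
      have hcont : ContinuousOn (fun z => ‖mob N z‖) (closedBall (0 : ℂ) r) := by
        refine ContinuousOn.norm ?_
        intro z hz
        exact (s5 N z ((s1 N hN).2.1 z (hKDD hz))).continuousAt.continuousWithinAt
      obtain ⟨x, hx, hmax⟩ := (isCompact_closedBall (0 : ℂ) r).exists_isMaxOn
        ⟨0, by simpa using hr0⟩ hcont
      have hbij := (s1 N hN).2.2.1
      have hx1 : ‖mob N x‖ < 1 := by
        have := hbij.mapsTo (hKD hx)
        rwa [mem_ball_zero_iff] at this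
      refine ⟨‖mob N x‖, hx1, fun z hz => ?_⟩
      have hNi := (s1 N hN).1
      have hw : mob N⁻¹ z ∈ D := (s1 N⁻¹ hNi).2.2.1.mapsTo hz
      obtain ⟨γ, hγ⟩ := hc _ hw
      refine ⟨γ, ?_⟩
      rw [cj_eq]
      have hzDD : z ∈ DD := ball_subset_closedBall hz
      have hd1 : den N⁻¹ z ≠ 0 := (s1 N⁻¹ hNi).2.1 z hzDD
      have hd2 : den (σ γ) (mob N⁻¹ z) ≠ 0 :=
        (s1 _ (hσ.su γ)).2.1 _ (ball_subset_closedBall hw)
      rw [(s4 (N * σ γ) N⁻¹ z hd1).1, (s4 N (σ γ) _ hd2).1]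
      have hin : mob (σ γ) (mob N⁻¹ z) ∈ closedBall (0 : ℂ) r := by
        rw [mem_closedBall_zero_iff]
        exact hγ
      exact hmax hin

end Pool.Agent.Helper14.QL
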